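import Pool.Agent.Helper55.FR.GoalsB

/-!
# Fan-Raspaud in cubic expanders of large girth: blocks (BLKS)
-/

namespace Pool.Agent.Helper75.FR

open Pool.Agent.Helper55.FR Finset

/-- BLKS. -/
theorem blks : BlksStmt := by
  classical
  intro V _ _ n L hL hn
  -- a maximal separated set
  let Ind : Finset V → Prop := fun S => ∀ s ∈ S, ∀ i : ℕ, 0 < i → i < L → (n ^ i) s ∉ S
  obtain ⟨S, hS, hmax⟩ := Finset.exists_max_image
    ((univ : Finset (Finset V)).filter Ind) Finset.card
    ⟨∅, mem_filter.2 ⟨mem_univ _, fun s hs => absurd hs (notMem_empty s)⟩⟩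
  have hInd : ∀ s ∈ S, ∀ i : ℕ, 0 < i → i < L → (n ^ i) s ∉ S := (mem_filter.1 hS).2
  have hadd : ∀ (a b : ℕ) (x : V), (n ^ (a + b)) x = (n ^ a) ((n ^ b) x) := by
    intro a b x
    rw [pow_add]
    rfl
  -- every point is close to the set
  have hex : ∀ v, ∃ j, j ≤ 2 * L - 2 ∧ ∃ s ∈ S, (n ^ j) s = v := by
    intro v
    by_contra hcon
    have hno : ∀ j, j ≤ 2 * L - 2 → ∀ s ∈ S, (n ^ j) s ≠ v := by
      intro j hj s hs h
      exact hcon ⟨j, hj, s, hs, h⟩
    obtain ⟨w, hw⟩ : ∃ w, (n ^ (L - 1)) w = v := (n ^ (L - 1)).surjective v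
    have h1 : ∀ s ∈ S, ∀ i, i < L → (n ^ i) s ≠ w := by
      intro s hs i hi h
      apply hno (L - 1 + i) (by omega) s hs
      rw [hadd, h, hw]
    have h2 : ∀ i, 0 < i → i < L → (n ^ i) w ∉ S := by
      intro i hi0 hi h
      apply hno (L - 1 - i) (by omega) _ h
      rw [← hadd, show L - 1 - i + i = L - 1 by omega, hw]
    have hwS : w ∉ S := by
      intro h
      exact h1 w h 0 (by omega) (by simp)
    have h3 : Ind (insert w S) := by
      intro s hs i hi0 hi hmem
      rw [mem_insert] at hs hmem
      rcases hs with rfl | hs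
      · rcases hmem with h | h
        · exact hn s i hi0 hi h
        · exact h2 i hi0 hi h
      · rcases hmem with h | h
        · exact h1 s hs i hi h
        · exact hInd s hs i hi0 hi h
    have h4 := hmax (insert w S) (mem_filter.2 ⟨mem_univ _, h3⟩)
    rw [card_insert_of_notMem hwS] at h4
    omega
  have hex' : ∀ v, ∃ j, ∃ s ∈ S, (n ^ j) s = v := fun v => by
    obtain ⟨j, _, h⟩ := hex v
    exact ⟨j, h⟩
  let J : V → ℕ := fun v => Nat.find (hex' v)
  let blk : V → V := fun v => (n ^ J v).symm v
  have hJspec : ∀ v, ∃ s ∈ S, (n ^ J v) s = v := fun v => Nat.find_spec (hex' v)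
  have hJmin : ∀ v j, j < J v → ¬ ∃ s ∈ S, (n ^ j) s = v := fun v j hj => Nat.find_min (hex' v) hj
  have hJle : ∀ v j, (∃ s ∈ S, (n ^ j) s = v) → J v ≤ j := fun v j h => Nat.find_min' (hex' v) h
  have hJ2 : ∀ v, J v ≤ 2 * L - 2 := by
    intro v
    obtain ⟨j, hj, h⟩ := hex v
    exact (hJle v j h).trans hj
  have hb1 : ∀ v, (n ^ J v) (blk v) = v := fun v => (n ^ J v).apply_symm_apply v
  have hbS : ∀ v, blk v ∈ S := by
    intro v
    obtain ⟨s, hs, h⟩ := hJspec v
    have : blk v = s := by
      show (n ^ J v).symm v = s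
      rw [Equiv.symm_apply_eq, h]
    rw [this]
    exact hs
  have key : ∀ s ∈ S, ∀ i : ℕ, (∀ t, 0 < t → t ≤ i → (n ^ t) s ∉ S) → blk ((n ^ i) s) = s := by
    intro s hs i h
    have hJi : J ((n ^ i) s) = i := by
      apply le_antisymm
      · exact hJle _ _ ⟨s, hs, rfl⟩
      · by_contra hlt
        rw [not_le] at hlt
        obtain ⟨s', hs', h'⟩ := hJspec ((n ^ i) s)
        set j := J ((n ^ i) s) with hj
        have h1 : (n ^ j) s' = (n ^ j) ((n ^ (i - j)) s) := by
          rw [h', ← hadd]
          congr 2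
          omega
        have h2 := (n ^ j).injective h1
        exact h (i - j) (by omega) (by omega) (h2 ▸ hs')
    show (n ^ J ((n ^ i) s)).symm ((n ^ i) s) = s
    rw [hJi, Equiv.symm_apply_apply]
  have key2 : ∀ v t, 0 < t → t ≤ J v → (n ^ t) (blk v) ∉ S := by
    intro v t ht0 ht h
    apply hJmin v (J v - t) (by omega)
    refine ⟨_, h, ?_⟩
    rw [← hadd, show J v - t + t = J v by omega, hb1]
  have hpath : ∀ v, ∀ j ≤ J v, blk ((n ^ j) (blk v)) = blk v := fun v j hj =>
    key _ (hbS v) j (fun t ht0 ht => key2 v t ht0 (ht.trans hj))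
  refine ⟨blk, ?_, ?_, ?_, ?_⟩
  · intro v
    have := hpath v 0 (Nat.zero_le _)
    simpa using this
  · intro v
    have h1 : (univ.filter fun x => blk x = blk v).card ≤ (range (2 * L)).card := by
      apply Finset.card_le_card_of_injOn J
      · intro x _
        have := hJ2 x
        simp only [coe_range, Set.mem_Iio]
        omega
      · intro x hx y hy hxy
        have hx' : blk x = blk v := (mem_filter.1 hx).2
        have hy' : blk y = blk v := (mem_filter.1 hy).2
        rw [← hb1 x, ← hb1 y, hx', hy', hxy]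
    rwa [card_range] at h1
  · intro v
    have h1 : (range L).card ≤ (univ.filter fun x => blk x = blk v).card := by
      apply Finset.card_le_card_of_injOn (fun i => (n ^ i) (blk v))
      · intro i hi
        have hi' : i < L := mem_range.1 hi
        refine mem_filter.2 ⟨mem_univ _, ?_⟩
        exact key _ (hbS v) i (fun t ht0 ht => hInd _ (hbS v) t ht0 (by omega))
      · intro i hi j hj hij
        have hi' : i < L := mem_range.1 hi
        have hj' : j < L := mem_range.1 hj
        have hij' : (n ^ i) (blk v) = (n ^ j) (blk v) := hij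
        rcases lt_trichotomy i j with h | h | h
        · exfalso
          have h2 : (n ^ i) (blk v) = (n ^ i) ((n ^ (j - i)) (blk v)) := by
            rw [hij', ← hadd, show i + (j - i) = j by omega]
          exact hn (blk v) (j - i) (by omega) (by omega) ((n ^ i).injective h2).symm
        · exact h
        · exfalso
          have h2 : (n ^ j) (blk v) = (n ^ j) ((n ^ (i - j)) (blk v)) := by
            rw [← hij', ← hadd, show j + (i - j) = i by omega]
          exact hn (blk v) (i - j) (by omega) (by omega) ((n ^ j).injective h2).symm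
    rwa [card_range] at h1
  · intro v
    exact ⟨J v, hb1 v, hpath v⟩

end Pool.Agent.Helper75.FR
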